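import Mathlib

open MeasureTheory Set Filter Topology

namespace Pool.Agent.Results.MP_e5cefd_an.TubeSet

/-!
For every `d ≥ 2` there is a compact set `K ⊆ ℝ^d` with `0 < H^{d-1}(K) < ∞` such that for every
`0 ≤ s < d - 1` there is a constant `C` with `H^{d-1}(K ∩ T) ≤ C w(T)^s` for all tubes `T`.

`K` is the closure of the graph of a function on `[0,1)^{d-1}` built from mixed radix digits: at
level `n` each cell is divided into `(n+2)^d` equal cells, and over every base cell exactly one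
of the `n+2` cells is kept, the choice being made so that every line comes close to at most
`O(log n)` of the kept cells (such a choice exists by a counting argument).
-/

/-- the line through `p` with direction `v` -/
def line {d : ℕ} (p v : EuclideanSpace ℝ (Fin d)) : Set (EuclideanSpace ℝ (Fin d)) :=
  Set.range fun t : ℝ => p + t • v

/-- the closed tube of width `w` around the line through `p` with direction `v` -/
def tube {d : ℕ} (p v : EuclideanSpace ℝ (Fin d)) (w : ℝ) : Set (EuclideanSpace ℝ (Fin d)) :=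
  {x | Metric.infDist x (line p v) ≤ w / 2}

lemma exists_good {ι κ : Type} [Fintype ι] [DecidableEq ι] [Fintype κ] (m : ℕ) (hm : 0 < m)
    (P : κ → ι → Fin m → Prop) [∀ a i h, Decidable (P a i h)] (B : ℝ)
    (hB : ∀ a, (∑ i, ((Finset.univ.filter (P a i)).card : ℝ)) ≤ B * m) :
    ∃ f : ι → Fin m, ∀ a, (2:ℝ) ^ (Finset.univ.filter fun i => P a i (f i)).card
      ≤ Fintype.card κ * Real.exp B := by
  classical
  have hm0 : (0:ℝ) < m := by exact_mod_cast hm
  have key : ∀ a, (∑ f : ι → Fin m, (2:ℝ) ^ (Finset.univ.filter fun i => P a i (f i)).card)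
      ≤ (m:ℝ) ^ (Fintype.card ι) * Real.exp B := by
    intro a
    have h1 : ∀ f : ι → Fin m, (2:ℝ) ^ (Finset.univ.filter fun i => P a i (f i)).card
        = ∏ i, (if P a i (f i) then (2:ℝ) else 1) := by
      intro f
      rw [Finset.prod_ite]
      simp
    simp_rw [h1]
    have h2 := Finset.prod_univ_sum (fun _ : ι => (Finset.univ : Finset (Fin m)))
      (fun i h => (if P a i h then (2:ℝ) else 1))
    rw [Fintype.piFinset_univ] at h2
    rw [← h2]
    have h3 : ∀ i, (∑ h : Fin m, (if P a i h then (2:ℝ) else 1))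
        = m + ((Finset.univ.filter (P a i)).card : ℝ) := by
      intro i
      have : ∀ h : Fin m, (if P a i h then (2:ℝ) else 1) = 1 + (if P a i h then 1 else 0) := by
        intro h; split_ifs <;> norm_num
      simp_rw [this]
      rw [Finset.sum_add_distrib]
      simp
    simp_rw [h3]
    have h4 : ∀ i ∈ (Finset.univ : Finset ι), (m:ℝ) + ((Finset.univ.filter (P a i)).card : ℝ)
        ≤ m * Real.exp (((Finset.univ.filter (P a i)).card : ℝ) / m) := by
      intro i _
      have := Real.add_one_le_exp (((Finset.univ.filter (P a i)).card : ℝ) / m)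
      calc (m:ℝ) + ((Finset.univ.filter (P a i)).card : ℝ)
          = m * (((Finset.univ.filter (P a i)).card : ℝ) / m + 1) := by
            field_simp; ring
        _ ≤ _ := mul_le_mul_of_nonneg_left this hm0.le
    refine (Finset.prod_le_prod (fun i _ => by positivity) h4).trans ?_
    rw [Finset.prod_mul_distrib, Finset.prod_const, Finset.card_univ, ← Real.exp_sum,
      ← Finset.sum_div]
    refine mul_le_mul_of_nonneg_left ?_ (by positivity)
    rw [Real.exp_le_exp, div_le_iff₀ hm0]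
    exact hB a
  have hne : (Finset.univ : Finset (ι → Fin m)).Nonempty :=
    ⟨fun _ => ⟨0, hm⟩, Finset.mem_univ _⟩
  obtain ⟨f, -, hf⟩ := Finset.exists_le_of_sum_le hne (f := fun f : ι → Fin m =>
      ∑ a, (2:ℝ) ^ (Finset.univ.filter fun i => P a i (f i)).card)
      (g := fun _ => Fintype.card κ * Real.exp B) (by
        rw [Finset.sum_comm]
        refine (Finset.sum_le_sum (fun a _ => key a)).trans ?_
        simp only [Finset.sum_const, Finset.card_univ, nsmul_eq_mul, Fintype.card_fun,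
          Fintype.card_fin, Nat.cast_pow]
        apply le_of_eq; ring)
  refine ⟨f, fun a => le_trans ?_ hf⟩
  exact Finset.single_le_sum (f := fun a => (2:ℝ) ^ (Finset.univ.filter fun i => P a i (f i)).card)
    (fun _ _ => by positivity) (Finset.mem_univ a)

/-- pattern condition -/
def pat {n : ℕ} (m : ℤ) (a : Fin n) (P V c : Fin n → ℤ) : Prop :=
  ∀ b, |m * (c b - P b) - c a * V b| ≤ 4 * m

/-- closeness of a line to the unit cell `c` -/
def near {n : ℕ} (p v : Fin n → ℝ) (c : Fin n → ℤ) : Prop :=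
  ∃ t : ℝ, ∀ b, (c b : ℝ) - 1/2 ≤ p b + t * v b ∧ p b + t * v b ≤ c b + 3/2

lemma near_pat {n : ℕ} (m : ℕ) (hm : 0 < m) (p v : Fin n → ℝ) (hv : v ≠ 0) :
    ∃ (a : Fin n) (P V : Fin n → ℤ), (∀ b, |P b| ≤ 2 * m + 1) ∧ (∀ b, |V b| ≤ 2 * m + 1) ∧
      ∀ c : Fin n → ℤ, (∀ b, 0 ≤ c b ∧ c b < m) → near p v c → pat m a P V c := by
  obtain ⟨b0, hb0⟩ : ∃ b, v b ≠ 0 := by
    by_contra h; push Not at h; exact hv (funext h)
  have : Nonempty (Fin n) := ⟨b0⟩
  obtain ⟨a, ha⟩ := Finite.exists_max (fun b => |v b|)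
  have hva : v a ≠ 0 := by
    intro h
    have := ha b0
    simp only [h, abs_zero] at this
    exact hb0 (abs_eq_zero.mp (le_antisymm this (abs_nonneg _)))
  have hm0 : (0:ℝ) < m := by exact_mod_cast hm
  by_cases hS : ∃ c : Fin n → ℤ, (∀ b, 0 ≤ c b ∧ c b < m) ∧ near p v c
  swap
  · refine ⟨a, 0, 0, fun b => by simp; positivity, fun b => by simp; positivity, ?_⟩
    intro c hc hn
    exact absurd ⟨c, hc, hn⟩ hS
  set u : Fin n → ℝ := fun b => v b / v a with hu
  set q : Fin n → ℝ := fun b => p b - p a * u b with hq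
  have hu1 : ∀ b, |u b| ≤ 1 := by
    intro b
    rw [hu]; simp only [abs_div]
    rw [div_le_one (abs_pos.mpr hva)]
    exact ha b
  have hrep : ∀ t b, p b + t * v b = q b + (p a + t * v a) * u b := by
    intro t b
    simp only [hq, hu]; field_simp; ring
  refine ⟨a, fun b => ⌊q b⌋, fun b => ⌊m * u b⌋, ?_, ?_, ?_⟩
  · intro b
    obtain ⟨c, hc, t, ht⟩ := hS
    have h1 := ht a
    have h2 := ht b
    rw [hrep t b] at h2
    set τ := p a + t * v a with hτ
    have ca := hc a
    have cb := hc b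
    have ca1 : (0:ℝ) ≤ c a := by exact_mod_cast ca.1
    have ca2 : (c a:ℝ) ≤ m - 1 := by
      have : c a ≤ m - 1 := by omega
      exact_mod_cast this
    have cb1 : (0:ℝ) ≤ c b := by exact_mod_cast cb.1
    have cb2 : (c b:ℝ) ≤ m - 1 := by
      have : c b ≤ m - 1 := by omega
      exact_mod_cast this
    have hτ1 : |τ| ≤ m + 1/2 := by rw [abs_le]; constructor <;> linarith
    have hτu : |τ * u b| ≤ m + 1/2 := by
      rw [abs_mul]
      calc |τ| * |u b| ≤ (m + 1/2) * 1 := mul_le_mul hτ1 (hu1 b) (abs_nonneg _) (by positivity)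
        _ = _ := by ring
    rw [abs_le] at hτu
    have e1 : q b ≤ 2 * m + 1 := by linarith
    have e2 : -(2 * m + 1 : ℝ) ≤ q b := by linarith
    rw [abs_le]
    constructor
    · rw [Int.le_floor]; push_cast; linarith
    · have := Int.floor_le (q b)
      have h3 : ((⌊q b⌋ : ℤ) : ℝ) ≤ ((2 * m + 1 : ℤ) : ℝ) := by push_cast; linarith
      exact_mod_cast h3
  · intro b
    have := hu1 b
    rw [abs_le] at this
    rw [abs_le]
    constructor
    · rw [Int.le_floor]; push_cast; nlinarith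
    · have h2 := Int.floor_le (m * u b)
      have h3 : ((⌊m * u b⌋ : ℤ) : ℝ) ≤ ((2 * m + 1 : ℤ) : ℝ) := by push_cast; nlinarith
      exact_mod_cast h3
  · intro c hc ⟨t, ht⟩ b
    have h1 := ht a
    have h2 := ht b
    rw [hrep t b] at h2
    set τ := p a + t * v a with hτ
    have ca := hc a
    have ca1 : (0:ℝ) ≤ c a := by exact_mod_cast ca.1
    have ca2 : (c a:ℝ) ≤ m - 1 := by
      have : c a ≤ m - 1 := by omega
      exact_mod_cast this
    have f1 := Int.floor_le (q b)
    have f2 := Int.lt_floor_add_one (q b)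
    have g1 := Int.floor_le (m * u b)
    have g2 := Int.lt_floor_add_one (m * u b)
    have hub := hu1 b
    rw [abs_le] at hub
    have hx : |(τ - c a) * u b| ≤ 3/2 := by
      rw [abs_mul]
      have : |τ - c a| ≤ 3/2 := by rw [abs_le]; constructor <;> linarith
      calc |τ - c a| * |u b| ≤ 3/2 * 1 := mul_le_mul this (hu1 b) (abs_nonneg _) (by norm_num)
        _ = _ := by norm_num
    rw [abs_le] at hx
    have main : |(m:ℝ) * (c b - ⌊q b⌋) - c a * ⌊m * u b⌋| ≤ 4 * m := by
      have e : (m:ℝ) * (c b - ⌊q b⌋) - c a * ⌊m * u b⌋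
          = m * (c b - (q b + τ * u b)) + m * (q b - ⌊q b⌋) + m * ((τ - c a) * u b)
            + c a * (m * u b - ⌊m * u b⌋) := by ring
      rw [e, abs_le]
      have k1 : (c a:ℝ) * (m * u b - ⌊m * u b⌋) ≤ m := by
        calc (c a:ℝ) * (m * u b - ⌊m * u b⌋) ≤ m * 1 :=
              mul_le_mul (by linarith) (by linarith) (by linarith) hm0.le
          _ = m := by ring
      have k0 : 0 ≤ (c a:ℝ) * (m * u b - ⌊m * u b⌋) := mul_nonneg ca1 (by linarith)
      have a1 : (m:ℝ) * (c b - (q b + τ * u b)) ≤ m * (1/2) :=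
        mul_le_mul_of_nonneg_left (by linarith) hm0.le
      have a2 : (m:ℝ) * (-(3/2)) ≤ m * (c b - (q b + τ * u b)) :=
        mul_le_mul_of_nonneg_left (by linarith) hm0.le
      have a3 : (m:ℝ) * (q b - ⌊q b⌋) ≤ m * 1 :=
        mul_le_mul_of_nonneg_left (by linarith) hm0.le
      have a4 : 0 ≤ (m:ℝ) * (q b - ⌊q b⌋) := mul_nonneg hm0.le (by linarith)
      have a5 : (m:ℝ) * ((τ - c a) * u b) ≤ m * (3/2) :=
        mul_le_mul_of_nonneg_left hx.2 hm0.le
      have a6 : (m:ℝ) * (-(3/2)) ≤ m * ((τ - c a) * u b) :=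
        mul_le_mul_of_nonneg_left hx.1 hm0.le
      constructor <;> linarith
    have cast : ((|(m:ℤ) * (c b - ⌊q b⌋) - c a * ⌊m * u b⌋| : ℤ) : ℝ) ≤ ((4 * (m:ℤ) : ℤ) : ℝ) := by
      push_cast
      exact main
    exact_mod_cast cast


/-- the lattice point with base coordinates `i` and height `h` -/
def enc {k m : ℕ} (i : Fin k → Fin m) (h : Fin m) : Fin (k+1) → ℤ :=
  Fin.snoc (α := fun _ => ℤ) (fun b => ((i b : ℕ) : ℤ)) ((h : ℕ) : ℤ)

lemma enc_mem {k m : ℕ} (i : Fin k → Fin m) (h : Fin m) (b : Fin (k+1)) :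
    0 ≤ enc i h b ∧ enc i h b < m := by
  refine Fin.lastCases ?_ (fun b => ?_) b
  · simp [enc]
  · simp [enc]

lemma enc_inj {k m : ℕ} {i i' : Fin k → Fin m} {h h' : Fin m} (e : enc i h = enc i' h') :
    i = i' ∧ h = h' := by
  constructor
  · funext b
    have := congrFun e b.castSucc
    simp only [enc, Fin.snoc_castSucc] at this
    exact Fin.ext (by exact_mod_cast this)
  · have := congrFun e (Fin.last k)
    simp only [enc, Fin.snoc_last] at this
    exact Fin.ext (by exact_mod_cast this)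

lemma count_pat {k : ℕ} (m : ℕ) (hm : 0 < m) (a : Fin (k+1)) (P V : Fin (k+1) → ℤ)
    [∀ c, Decidable (pat (m:ℤ) a P V c)] :
    (∑ i : Fin k → Fin m, ((Finset.univ.filter
      (fun h : Fin m => pat (m:ℤ) a P V (enc i h))).card : ℝ)) ≤ (9:ℝ)^(k+1) * m := by
  classical
  have h1 : (∑ i : Fin k → Fin m, ((Finset.univ.filter
      (fun h : Fin m => pat (m:ℤ) a P V (enc i h))).card : ℝ))
      = ((Finset.univ.filter (fun q : (Fin k → Fin m) × Fin m =>
        pat (m:ℤ) a P V (enc q.1 q.2))).card : ℝ) := by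
    simp only [Finset.card_filter, Nat.cast_sum, Fintype.sum_prod_type]
  rw [h1]
  set e : ℤ → Fin (k+1) → ℤ := fun s b => ((m:ℤ) * P b + s * V b - 4 * m) / m with he
  have hm0 : (0:ℤ) < m := by exact_mod_cast hm
  have h2 : (Finset.univ.filter (fun q : (Fin k → Fin m) × Fin m =>
        pat (m:ℤ) a P V (enc q.1 q.2))).card ≤
      ((Finset.Ico (0:ℤ) m) ×ˢ Fintype.piFinset (fun _ : Fin (k+1) => Finset.Icc (0:ℤ) 8)).card := by
    apply Finset.card_le_card_of_injOn
      (fun q => (enc q.1 q.2 a, fun b => enc q.1 q.2 b - e (enc q.1 q.2 a) b))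
    · intro q hq
      simp only [Finset.coe_filter, Finset.mem_univ, true_and, Set.mem_ofPred_eq] at hq
      simp only [Finset.coe_product, Set.mem_prod, Finset.mem_coe, Finset.mem_Ico,
        Fintype.mem_piFinset, Finset.mem_Icc]
      refine ⟨enc_mem _ _ _, fun b => ?_⟩
      have hb := hq b
      rw [abs_le] at hb
      set c := enc q.1 q.2
      have hdiv := Int.mul_ediv_add_emod ((m:ℤ) * P b + c a * V b - 4 * m) m
      have hr0 := Int.emod_nonneg ((m:ℤ) * P b + c a * V b - 4 * m) hm0.ne'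
      have hr1 := Int.emod_lt_of_pos ((m:ℤ) * P b + c a * V b - 4 * m) hm0
      have heq : e (c a) b = ((m:ℤ) * P b + c a * V b - 4 * m) / m := rfl
      rw [heq]
      set Q := ((m:ℤ) * P b + c a * V b - 4 * m) / m
      set R := ((m:ℤ) * P b + c a * V b - 4 * m) % m
      constructor
      · -- m (c b - Q) ≥ R ≥ 0
        have : 0 ≤ (m:ℤ) * (c b - Q) := by nlinarith [hb.1, hb.2]
        exact nonneg_of_mul_nonneg_right this hm0
      · have : (m:ℤ) * (c b - Q) < m * 9 := by nlinarith [hb.1, hb.2]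
        have := lt_of_mul_lt_mul_left this hm0.le
        omega
    · intro q _ q' _ heq
      simp only [Prod.mk.injEq] at heq
      obtain ⟨h3, h4⟩ := heq
      have : enc q.1 q.2 = enc q'.1 q'.2 := by
        funext b
        have := congrFun h4 b
        simp only [h3] at this
        linarith
      obtain ⟨a1, a2⟩ := enc_inj this
      exact Prod.ext a1 a2
  have h3 : ((Finset.Ico (0:ℤ) m) ×ˢ Fintype.piFinset (fun _ : Fin (k+1) =>
      Finset.Icc (0:ℤ) 8)).card = m * 9^(k+1) := by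
    rw [Finset.card_product, Fintype.card_piFinset]
    simp
  rw [h3] at h2
  have : ((Finset.univ.filter (fun q : (Fin k → Fin m) × Fin m =>
        pat (m:ℤ) a P V (enc q.1 q.2))).card : ℝ) ≤ ((m * 9^(k+1) : ℕ) : ℝ) := by exact_mod_cast h2
  refine this.trans (le_of_eq ?_)
  push_cast; ring

/-- the bound for the number of chosen cells close to a line -/
noncomputable def tval (k m : ℕ) : ℝ :=
  Real.logb 2 (((k+1 : ℕ) : ℝ) * ((4*m+3 : ℕ) : ℝ)^(2*(k+1)) * Real.exp ((9:ℝ)^(k+1)))

open Classical in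
lemma exists_fun (k m : ℕ) (hm : 0 < m) : ∃ f : (Fin k → Fin m) → Fin m,
    ∀ p v : Fin (k+1) → ℝ, v ≠ 0 →
      ((Finset.univ.filter fun i : Fin k → Fin m => near p v (enc i (f i))).card : ℝ)
        ≤ tval k m := by
  let dec : Fin (4*m+3) → ℤ := fun z => ((z:ℕ):ℤ) - (2*m+1)
  have hdec : ∀ x : ℤ, |x| ≤ 2*m+1 → ∃ z, dec z = x := by
    intro x hx
    rw [abs_le] at hx
    refine ⟨⟨(x + (2*m+1)).toNat, ?_⟩, ?_⟩
    · omega
    · simp only [dec]; omega
  obtain ⟨f, hf⟩ := exists_good (ι := Fin k → Fin m)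
    (κ := Fin (k+1) × (Fin (k+1) → Fin (4*m+3)) × (Fin (k+1) → Fin (4*m+3))) m hm
    (fun q i h => pat (m:ℤ) q.1 (fun b => dec (q.2.1 b)) (fun b => dec (q.2.2 b)) (enc i h))
    ((9:ℝ)^(k+1)) (fun q => count_pat m hm _ _ _)
  refine ⟨f, fun p v hv => ?_⟩
  obtain ⟨a, P, V, hP, hV, hc⟩ := near_pat m hm p v hv
  choose zP hzP using fun b => hdec (P b) (hP b)
  choose zV hzV using fun b => hdec (V b) (hV b)
  have h1 := hf (a, zP, zV)
  simp only [hzP, hzV] at h1
  have h2 : (Finset.univ.filter fun i : Fin k → Fin m => near p v (enc i (f i))).card ≤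
      (Finset.univ.filter fun i : Fin k → Fin m => pat (m:ℤ) a P V (enc i (f i))).card := by
    apply Finset.card_le_card
    intro i hi
    simp only [Finset.mem_filter, Finset.mem_univ, true_and] at hi ⊢
    exact hc _ (enc_mem _ _) hi
  have h3 : (2:ℝ) ^ (Finset.univ.filter fun i : Fin k → Fin m => near p v (enc i (f i))).card
      ≤ ((k+1 : ℕ) : ℝ) * ((4*m+3 : ℕ) : ℝ)^(2*(k+1)) * Real.exp ((9:ℝ)^(k+1)) := by
    refine (pow_le_pow_right₀ (by norm_num) h2).trans (h1.trans (le_of_eq ?_))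
    simp only [Fintype.card_prod, Fintype.card_fin, Fintype.card_fun]
    push_cast
    ring
  rw [tval, Real.le_logb_iff_rpow_le (by norm_num) (by positivity), Real.rpow_natCast]
  exact h3


/-! ### growth -/

lemma tval_nonneg (k m : ℕ) : 0 ≤ tval k m := by
  unfold tval
  apply Real.logb_nonneg (by norm_num)
  have h1 : (1:ℝ) ≤ ((k+1 : ℕ) : ℝ) := by exact_mod_cast Nat.succ_le_succ (Nat.zero_le k)
  have h2 : (1:ℝ) ≤ ((4*m+3 : ℕ) : ℝ)^(2*(k+1)) := one_le_pow₀ (by
    have : 1 ≤ 4*m+3 := by omega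
    exact_mod_cast this)
  have h3 : (1:ℝ) ≤ Real.exp ((9:ℝ)^(k+1)) := Real.one_le_exp (by positivity)
  nlinarith [mul_le_mul h1 h2 (by norm_num) (by linarith), mul_nonneg (sub_nonneg.mpr h1) (sub_nonneg.mpr h2)]

lemma tval_le (k : ℕ) : ∃ a b : ℝ, 0 ≤ b ∧ ∀ m : ℕ, 1 ≤ m → tval k m ≤ a + b * Real.log m := by
  refine ⟨(Real.log ((k+1 : ℕ) : ℝ) + (2*(k+1) : ℕ) * Real.log 7 + (9:ℝ)^(k+1)) / Real.log 2,
    (2*(k+1) : ℕ) / Real.log 2, by positivity, ?_⟩
  intro m hm
  have hl2 : 0 < Real.log 2 := Real.log_pos (by norm_num)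
  have hm0 : (0:ℝ) < m := by exact_mod_cast hm
  have hm1 : (1:ℝ) ≤ m := by exact_mod_cast hm
  unfold tval
  rw [Real.logb, Real.log_mul (by positivity) (by positivity),
    Real.log_mul (by positivity) (by positivity), Real.log_exp, Real.log_pow]
  rw [div_mul_eq_mul_div, ← add_div, div_le_div_iff_of_pos_right hl2]
  have h1 : Real.log ((4*m+3 : ℕ) : ℝ) ≤ Real.log 7 + Real.log m := by
    rw [← Real.log_mul (by norm_num) hm0.ne']
    apply Real.log_le_log (by positivity)
    push_cast; linarith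
  have h2 : ((2*(k+1) : ℕ) : ℝ) * Real.log ((4*m+3 : ℕ) : ℝ)
      ≤ ((2*(k+1) : ℕ) : ℝ) * (Real.log 7 + Real.log m) :=
    mul_le_mul_of_nonneg_left h1 (by positivity)
  linarith

lemma eventually_small (k : ℕ) (s : ℝ) (hs0 : 0 ≤ s) (hs : s < k) :
    ∃ N : ℕ, ∀ n ≥ N, tval k (n+2) * ((n:ℝ)+3)^s ≤ ((n:ℝ)+2)^(k:ℝ) := by
  obtain ⟨a, b, hb, hab⟩ := tval_le k
  have hη : 0 < (k:ℝ) - s := by linarith
  have ho : (fun x : ℝ => a + b * Real.log x) =o[atTop] (fun x : ℝ => x ^ ((k:ℝ) - s)) := by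
    apply Asymptotics.IsLittleO.add
    · exact Asymptotics.isLittleO_const_left.mpr (Or.inr (by
        have := tendsto_rpow_atTop hη
        exact tendsto_abs_atTop_atTop.comp this))
    · exact (isLittleO_log_rpow_atTop hη).const_mul_left b
  have h2 : (0:ℝ) < (2:ℝ)^(-s) := by positivity
  have hev := ho.def h2
  rw [eventually_atTop] at hev
  obtain ⟨x0, hx0⟩ := hev
  obtain ⟨N, hN⟩ := exists_nat_ge x0
  refine ⟨N, fun n hn => ?_⟩
  have hx : x0 ≤ (n:ℝ) + 2 := by
    have : (N:ℝ) ≤ n := by exact_mod_cast hn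
    linarith
  have h3 := hx0 _ hx
  rw [Real.norm_eq_abs, Real.norm_eq_abs] at h3
  have hpos : (0:ℝ) < (n:ℝ) + 2 := by positivity
  rw [abs_of_pos (Real.rpow_pos_of_pos hpos _)] at h3
  have h4 : tval k (n+2) ≤ 2^(-s) * ((n:ℝ)+2)^((k:ℝ)-s) := by
    have := hab (n+2) (by omega)
    push_cast at this
    exact this.trans ((le_abs_self _).trans h3)
  have h5 : ((n:ℝ)+3)^s ≤ 2^s * ((n:ℝ)+2)^s := by
    rw [← Real.mul_rpow (by norm_num) hpos.le]
    apply Real.rpow_le_rpow (by positivity) _ hs0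
    linarith
  calc tval k (n+2) * ((n:ℝ)+3)^s
      ≤ (2^(-s) * ((n:ℝ)+2)^((k:ℝ)-s)) * (2^s * ((n:ℝ)+2)^s) :=
        mul_le_mul h4 h5 (by positivity) (by positivity)
    _ = (2^(-s) * 2^s) * (((n:ℝ)+2)^((k:ℝ)-s) * ((n:ℝ)+2)^s) := by ring
    _ = ((n:ℝ)+2)^(k:ℝ) := by
        rw [← Real.rpow_add (by norm_num : (0:ℝ) < 2), ← Real.rpow_add hpos]
        simp

lemma bdd_of_eventually (a : ℕ → ℝ) (N : ℕ) (h : ∀ n ≥ N, a (n+1) ≤ a n) :
    ∃ C, 0 ≤ C ∧ ∀ n, a n ≤ C := by
  refine ⟨∑ j ∈ Finset.range (N+1), |a j|, Finset.sum_nonneg fun _ _ => abs_nonneg _, ?_⟩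
  intro n
  by_cases hn : n ≤ N
  · exact (le_abs_self _).trans (Finset.single_le_sum (f := fun j => |a j|)
      (fun _ _ => abs_nonneg _) (Finset.mem_range.mpr (by omega)))
  · have h1 : ∀ j, a (N + j) ≤ a N := by
      intro j
      induction j with
      | zero => simp
      | succ j ih => exact (h (N+j) (by omega)).trans ih
    have h2 := h1 (n - N)
    rw [Nat.add_sub_cancel' (by omega)] at h2
    exact h2.trans ((le_abs_self _).trans (Finset.single_le_sum (f := fun j => |a j|)
      (fun _ _ => abs_nonneg _) (Finset.mem_range.mpr (by omega))))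

/-! ### the set -/

/-- the number of subdivisions of the unit interval at level `n` -/
def M (n : ℕ) : ℕ := (n+1).factorial

lemma M_succ (n : ℕ) : M (n+1) = (n+2) * M n := by
  unfold M; rw [Nat.factorial_succ]

lemma M_pos (n : ℕ) : 0 < M n := Nat.factorial_pos _

lemma M_posR (n : ℕ) : (0:ℝ) < M n := by exact_mod_cast M_pos n

/-- digit at level `n` -/
noncomputable def A (n : ℕ) (x : ℝ) : ℕ := ⌊x * M n⌋₊

lemma A_add (n q : ℕ) (x : ℝ) : A n x = A (n+q) x / (M (n+q) / M n) := by
  have hd : M n ∣ M (n+q) := Nat.factorial_dvd_factorial (by omega)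
  obtain ⟨R, hR⟩ := hd
  have hR0 : 0 < R := by
    rcases Nat.eq_zero_or_pos R with h | h
    · rw [h] at hR; have := M_pos (n+q); omega
    · exact h
  have h1 : M (n+q) / M n = R := by rw [hR, Nat.mul_div_cancel_left _ (M_pos n)]
  rw [h1]
  unfold A
  rw [← Nat.floor_div_natCast]
  congr 1
  rw [hR]
  have : (R:ℝ) ≠ 0 := by positivity
  push_cast
  field_simp

lemma A_succ (n : ℕ) (x : ℝ) : A n x = A (n+1) x / (n+2) := by
  have := A_add n 1 x
  rw [this, M_succ, Nat.mul_div_cancel _ (M_pos n)]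

lemma A_lt (n : ℕ) (x : ℝ) (hx : x ∈ Ico (0:ℝ) 1) : A n x < M n := by
  unfold A
  rw [Nat.floor_lt (mul_nonneg hx.1 (M_posR n).le)]
  have := M_posR n
  nlinarith [hx.2]

section
variable {k : ℕ} (f : ∀ n : ℕ, (Fin k → Fin (n+2)) → Fin (n+2))

/-- height index over the base cell `i` of level `n` -/
def Hi : ℕ → (Fin k → ℕ) → ℕ
  | 0, _ => 0
  | n+1, i => (n+2) * Hi n (fun b => i b / (n+2))
      + (f n (fun b => ⟨i b % (n+2), Nat.mod_lt _ (by omega)⟩) : ℕ)

/-- height index of the point `x` -/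
noncomputable def Ht (n : ℕ) (x : Fin k → ℝ) : ℕ := Hi f n (fun b => A n (x b))

lemma Ht_succ_ge (n : ℕ) (x : Fin k → ℝ) : (n+2) * Ht f n x ≤ Ht f (n+1) x := by
  unfold Ht
  rw [Hi]
  simp only [← A_succ]
  exact Nat.le_add_right _ _

lemma Ht_succ_le (n : ℕ) (x : Fin k → ℝ) : Ht f (n+1) x + 1 ≤ (n+2) * (Ht f n x + 1) := by
  unfold Ht
  rw [Hi]
  simp only [← A_succ]
  have := (f n (fun b => ⟨A (n+1) (x b) % (n+2), Nat.mod_lt _ (by omega)⟩)).isLt
  rw [mul_add]
  omega

lemma Ht_mono (x : Fin k → ℝ) : Monotone (fun n => (Ht f n x : ℝ) / M n) := by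
  apply monotone_nat_of_le_succ
  intro n
  rw [div_le_div_iff₀ (M_posR _) (M_posR _), M_succ]
  have := Ht_succ_ge f n x
  have h : ((n+2 : ℕ):ℝ) * Ht f n x ≤ Ht f (n+1) x := by exact_mod_cast this
  push_cast at h ⊢
  nlinarith [M_posR n, mul_le_mul_of_nonneg_left h (M_posR n).le]

lemma Ht_anti (x : Fin k → ℝ) : Antitone (fun n => ((Ht f n x : ℝ) + 1) / M n) := by
  apply antitone_nat_of_succ_le
  intro n
  rw [div_le_div_iff₀ (M_posR _) (M_posR _), M_succ]
  have := Ht_succ_le f n x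
  have h : (Ht f (n+1) x : ℝ) + 1 ≤ ((n+2 : ℕ):ℝ) * (Ht f n x + 1) := by exact_mod_cast this
  push_cast at h ⊢
  nlinarith [M_posR n, mul_le_mul_of_nonneg_left h (M_posR n).le]

lemma Ht_le (x : Fin k → ℝ) (n N : ℕ) : (Ht f N x : ℝ) / M N ≤ ((Ht f n x : ℝ) + 1) / M n := by
  have h1 := Ht_mono f x (le_max_right n N)
  have h2 := Ht_anti f x (le_max_left n N)
  simp only at h1 h2
  refine h1.trans (le_trans ?_ h2)
  apply div_le_div_of_nonneg_right _ (M_posR _).le
  linarith

/-- the function whose graph is the set -/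
noncomputable def g (x : Fin k → ℝ) : ℝ := ⨆ n, (Ht f n x : ℝ) / M n

lemma g_ge (n : ℕ) (x : Fin k → ℝ) : (Ht f n x : ℝ) ≤ M n * g f x := by
  have : (Ht f n x : ℝ) / M n ≤ g f x :=
    le_ciSup (f := fun n => (Ht f n x : ℝ) / M n)
      ⟨((Ht f 0 x : ℝ) + 1) / M 0, by rintro _ ⟨N, rfl⟩; exact Ht_le f x 0 N⟩ n
  rw [div_le_iff₀ (M_posR n)] at this
  linarith

lemma g_le (n : ℕ) (x : Fin k → ℝ) : M n * g f x ≤ (Ht f n x : ℝ) + 1 := by
  have : g f x ≤ ((Ht f n x : ℝ) + 1) / M n := ciSup_le (fun N => Ht_le f x n N)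
  rw [le_div_iff₀ (M_posR n)] at this
  linarith

/-- the point of the graph over `x` -/
noncomputable def pt (x : Fin k → ℝ) : EuclideanSpace ℝ (Fin (k+1)) :=
  WithLp.toLp 2 (Fin.snoc (α := fun _ => ℝ) x (g f x))

@[simp] lemma pt_castSucc (x : Fin k → ℝ) (b : Fin k) : pt f x b.castSucc = x b := by
  simp [pt]

@[simp] lemma pt_last (x : Fin k → ℝ) : pt f x (Fin.last k) = g f x := by
  simp [pt]

/-- the part of the graph over the base cell `i` of level `n` -/
def piece (n : ℕ) (i : Fin k → ℕ) : Set (EuclideanSpace ℝ (Fin (k+1))) :=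
  {X | ∃ x : Fin k → ℝ, (∀ b, x b ∈ Ico (0:ℝ) 1) ∧ (∀ b, A n (x b) = i b) ∧ X = pt f x}

/-- the set -/
def KK : Set (EuclideanSpace ℝ (Fin (k+1))) :=
  closure {X | ∃ x : Fin k → ℝ, (∀ b, x b ∈ Ico (0:ℝ) 1) ∧ X = pt f x}

/-- integer corner of a cell -/
def encN (i : Fin k → ℕ) (h : ℕ) : Fin (k+1) → ℤ :=
  Fin.snoc (α := fun _ => ℤ) (fun b => (i b : ℤ)) (h : ℤ)

/-- closed box of level `n` with corner `c` -/
def box (n : ℕ) (c : Fin (k+1) → ℤ) : Set (EuclideanSpace ℝ (Fin (k+1))) :=
  {X | ∀ b, (c b : ℝ) ≤ M n * X b ∧ M n * X b ≤ c b + 1}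

lemma isClosed_box (n : ℕ) (c : Fin (k+1) → ℤ) : IsClosed (box n c) := by
  unfold box
  simp only [Set.ofPred_forall]
  apply isClosed_iInter
  intro b
  have hc : Continuous fun X : EuclideanSpace ℝ (Fin (k+1)) => (M n : ℝ) * X b := by fun_prop
  exact (isClosed_le continuous_const hc).inter (isClosed_le hc continuous_const)

lemma piece_subset (n : ℕ) (i : Fin k → ℕ) : closure (piece f n i) ⊆ box n (encN i (Hi f n i)) := by
  apply closure_minimal _ (isClosed_box n _)
  rintro X ⟨x, hx, hA, rfl⟩ b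
  refine Fin.lastCases ?_ (fun b => ?_) b
  · rw [pt_last]
    have : Hi f n i = Ht f n x := by unfold Ht; congr 1; funext b; exact (hA b).symm
    simp only [encN, Fin.snoc_last, this]
    exact ⟨by exact_mod_cast g_ge f n x, by exact_mod_cast g_le f n x⟩
  · rw [pt_castSucc]
    simp only [encN, Fin.snoc_castSucc]
    have h1 := hA b
    unfold A at h1
    have h0 : 0 ≤ x b * M n := mul_nonneg (hx b).1 (M_posR n).le
    have h2 := Nat.floor_le h0
    have h3 := Nat.lt_floor_add_one (x b * M n)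
    rw [h1] at h2 h3
    constructor
    · push_cast; linarith
    · push_cast; linarith

lemma ediam_box (n : ℕ) (c : Fin (k+1) → ℤ) :
    Metric.ediam (box n c) ≤ ENNReal.ofReal (((k:ℝ)+1) / M n) := by
  apply Metric.ediam_le
  intro X hX Y hY
  rw [edist_dist]
  apply ENNReal.ofReal_le_ofReal
  rw [EuclideanSpace.dist_eq]
  apply Real.sqrt_le_iff.mpr
  have hMp := M_posR n
  constructor
  · positivity
  have h1 : ∀ b ∈ (Finset.univ : Finset (Fin (k+1))), dist (X b) (Y b) ^ 2 ≤ (1 / (M n : ℝ))^2 := by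
    intro b _
    have h2 := hX b
    have h3 := hY b
    apply pow_le_pow_left₀ dist_nonneg
    rw [Real.dist_eq, le_div_iff₀ hMp]
    have h4 : |(M n : ℝ) * X b - M n * Y b| ≤ 1 := abs_le.mpr ⟨by linarith, by linarith⟩
    rw [← mul_sub, abs_mul, abs_of_pos hMp] at h4
    linarith
  refine (Finset.sum_le_sum h1).trans ?_
  simp only [Finset.sum_const, Finset.card_univ, Fintype.card_fin, nsmul_eq_mul]
  rw [div_pow, div_pow, mul_div_assoc']
  apply div_le_div_of_nonneg_right _ (by positivity)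
  push_cast
  nlinarith


lemma measure_piece (n : ℕ) (i : Fin k → ℕ) :
    μH[(k:ℝ)] (closure (piece f n i)) ≤ ENNReal.ofReal ((((k:ℝ)+1) / M n)^k) := by
  classical
  have hsum : ∀ q : ℕ, (∑ _i' : Fin k → Fin (M (n+q) / M n),
      (ENNReal.ofReal (((k:ℝ)+1) / M (n+q))) ^ (k:ℝ)) = ENNReal.ofReal ((((k:ℝ)+1) / M n)^k) := by
    intro q
    have hd : M n ∣ M (n+q) := Nat.factorial_dvd_factorial (by omega)
    obtain ⟨R, hR⟩ := hd
    have hR0 : 0 < R := by
      rcases Nat.eq_zero_or_pos R with h | h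
      · rw [h] at hR; have := M_pos (n+q); omega
      · exact h
    have h1 : M (n+q) / M n = R := by rw [hR, Nat.mul_div_cancel_left _ (M_pos n)]
    rw [h1]
    simp only [Finset.sum_const, Finset.card_univ, Fintype.card_fun, Fintype.card_fin, nsmul_eq_mul,
      ENNReal.rpow_natCast]
    rw [← ENNReal.ofReal_pow (by positivity), ← ENNReal.ofReal_natCast, ← ENNReal.ofReal_mul
      (by positivity)]
    congr 1
    push_cast
    rw [← mul_pow, hR]
    congr 1
    have := M_posR n
    have : (R:ℝ) ≠ 0 := by positivity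
    push_cast
    field_simp
  have hr : Tendsto (fun q : ℕ => ENNReal.ofReal (((k:ℝ)+1) / M (n+q))) atTop (𝓝 0) := by
    rw [← ENNReal.ofReal_zero]
    apply ENNReal.tendsto_ofReal
    apply Tendsto.div_atTop tendsto_const_nhds
    apply tendsto_natCast_atTop_atTop.comp
    apply tendsto_atTop_mono (f := fun q : ℕ => q) (g := fun q => M (n+q)) _ tendsto_id
    intro q
    exact le_trans (by omega) (Nat.self_le_factorial (n+q+1))
  have h := MeasureTheory.Measure.hausdorffMeasure_le_liminf_sum (β := ℕ)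
    (ι := fun q => (Fin k → Fin (M (n+q) / M n))) (k:ℝ) (closure (piece f n i)) (l := atTop)
    (fun q => ENNReal.ofReal (((k:ℝ)+1) / M (n+q))) hr
    (fun q i' => closure (piece f (n+q) (fun b => (M (n+q) / M n) * i b + i' b)))
    (Eventually.of_forall fun q i' => (Metric.ediam_mono (piece_subset f _ _)).trans (ediam_box _ _))
    (Eventually.of_forall fun q => by
      rw [← closure_iUnion_of_finite]
      apply closure_mono
      rintro X ⟨x, hx, hA, rfl⟩
      rw [Set.mem_iUnion]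
      have hR0 : 0 < M (n+q) / M n := Nat.div_pos (Nat.factorial_le (by omega)) (M_pos n)
      refine ⟨fun b => ⟨A (n+q) (x b) % (M (n+q) / M n), Nat.mod_lt _ hR0⟩, x, hx, fun b => ?_, rfl⟩
      show A (n+q) (x b) = (M (n+q) / M n) * i b + A (n+q) (x b) % (M (n+q) / M n)
      rw [← hA b, A_add n q (x b)]
      exact (Nat.div_add_mod _ _).symm)
  refine h.trans ?_
  refine (liminf_le_liminf (v := fun _ => ENNReal.ofReal ((((k:ℝ)+1) / M n)^k))
    (Eventually.of_forall fun q => ?_)).trans ?_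
  · rw [← hsum q]
    apply Finset.sum_le_sum
    intro i' _
    exact ENNReal.rpow_le_rpow ((Metric.ediam_mono (piece_subset f _ _)).trans (ediam_box _ _))
      (by positivity)
  · simp

lemma KK_eq : KK f = closure (piece f 0 (fun _ => 0)) := by
  unfold KK piece
  congr 1
  ext X
  constructor
  · rintro ⟨x, hx, rfl⟩
    refine ⟨x, hx, fun b => ?_, rfl⟩
    have := A_lt 0 (x b) (hx b)
    simp only [M, zero_add, Nat.factorial_one] at this
    show A 0 (x b) = 0
    omega
  · rintro ⟨x, hx, -, rfl⟩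
    exact ⟨x, hx, rfl⟩

lemma measure_KK : μH[(k:ℝ)] (KK f) ≤ ENNReal.ofReal (((k:ℝ)+1)^k) := by
  rw [KK_eq]
  refine (measure_piece f 0 _).trans (le_of_eq ?_)
  simp [M]

lemma KK_pos : 1 ≤ μH[(k:ℝ)] (KK f) := by
  have hL : LipschitzWith 1 (fun X : EuclideanSpace ℝ (Fin (k+1)) => (fun b : Fin k => X b.castSucc)) := by
    apply LipschitzWith.of_dist_le_mul
    intro X Y
    rw [NNReal.coe_one, one_mul, dist_pi_le_iff dist_nonneg]
    intro b
    have := PiLp.dist_apply_le (p := 2) X Y b.castSucc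
    exact this
  have h1 := hL.hausdorffMeasure_image_le (d := (k:ℝ)) (by positivity) (KK f)
  simp only [ENNReal.coe_one, ENNReal.one_rpow, one_mul] at h1
  refine le_trans ?_ h1
  have h2 : Set.pi Set.univ (fun _ : Fin k => Ico (0:ℝ) 1) ⊆
      (fun X : EuclideanSpace ℝ (Fin (k+1)) => (fun b : Fin k => X b.castSucc)) '' (KK f) := by
    intro x hx
    refine ⟨pt f x, subset_closure ⟨x, fun b => hx b (Set.mem_univ _), rfl⟩, ?_⟩
    funext b
    simp
  refine le_trans ?_ (measure_mono h2)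
  have h3 : (μH[((Fintype.card (Fin k) : ℕ) : ℝ)] : Measure (Fin k → ℝ)) = volume :=
    MeasureTheory.hausdorffMeasure_pi_real
  rw [Fintype.card_fin] at h3
  rw [h3, Real.volume_pi_Ico]
  simp

lemma isCompact_KK : IsCompact (KK f) := by
  apply Metric.isCompact_of_isClosed_isBounded
  · exact isClosed_closure
  · rw [KK_eq, Metric.isBounded_iff_ediam_ne_top]
    exact ne_top_of_le_ne_top ENNReal.ofReal_ne_top
      ((Metric.ediam_mono (piece_subset f _ _)).trans (ediam_box _ _))

/-! ### counting -/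

open Classical in
/-- base indices of the level `n` cells close to the line `p + t v` -/
noncomputable def S (n : ℕ) (p v : Fin (k+1) → ℝ) : Finset (Fin k → ℕ) :=
  (Fintype.piFinset (fun _ => Finset.range (M n))).filter
    (fun i => near (fun b => M n * p b) (fun b => M n * v b) (encN i (Hi f n i)))

open Classical in
lemma card_S (hf : ∀ n, ∀ p v : Fin (k+1) → ℝ, v ≠ 0 →
      ((Finset.univ.filter fun i : Fin k → Fin (n+2) => near p v (enc i (f n i))).card : ℝ)
        ≤ tval k (n+2)) (p v : Fin (k+1) → ℝ) (hv : v ≠ 0) (n : ℕ) :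
    ((S f n p v).card : ℝ) ≤ ∏ j ∈ Finset.range n, tval k (j+2) := by
  induction n with
  | zero =>
    simp only [Finset.range_zero, Finset.prod_empty]
    have : (S f 0 p v).card ≤ (Fintype.piFinset (fun _ : Fin k => Finset.range (M 0))).card :=
      Finset.card_filter_le _ _
    rw [Fintype.card_piFinset] at this
    simp [M] at this
    exact_mod_cast this
  | succ n ih =>
    rw [Finset.prod_range_succ]
    have hmaps : Set.MapsTo (fun i : Fin k → ℕ => (fun b => i b / (n+2)))
        (S f (n+1) p v : Set (Fin k → ℕ)) (S f n p v : Set (Fin k → ℕ)) := by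
      intro i hi
      simp only [S, Finset.coe_filter, Set.mem_ofPred_eq, Fintype.mem_piFinset, Finset.mem_range] at hi ⊢
      obtain ⟨h1, t, ht⟩ := hi
      refine ⟨fun b => ?_, t, ?_⟩
      · apply Nat.div_lt_of_lt_mul
        rw [← M_succ]; exact h1 b
      · have hM : (M (n+1) : ℝ) = ((n:ℝ)+2) * M n := by rw [M_succ]; push_cast; ring
        have hn0 : (0:ℝ) < (n:ℝ) + 2 := by positivity
        have hn1 : (0:ℝ) ≤ (n:ℝ) := by positivity
        have step : ∀ (c c' r : ℝ) (y : ℝ), c' = ((n:ℝ)+2) * c + r → 0 ≤ r → r ≤ n + 1 →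
            c' - 1/2 ≤ ((n:ℝ)+2) * y → ((n:ℝ)+2) * y ≤ c' + 3/2 → c - 1/2 ≤ y ∧ y ≤ c + 3/2 := by
          intro c c' r y e1 e2 e3 e4 e5
          constructor
          · by_contra hcon
            push Not at hcon
            have := mul_lt_mul_of_pos_left hcon hn0
            nlinarith
          · by_contra hcon
            push Not at hcon
            have := mul_lt_mul_of_pos_left hcon hn0
            nlinarith
        intro b
        refine Fin.lastCases ?_ (fun b => ?_) b
        · have h2 := ht (Fin.last k)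
          simp only [encN, Fin.snoc_last] at h2 ⊢
          rw [Hi] at h2
          set r := f n (fun b => ⟨i b % (n+2), Nat.mod_lt _ (by omega)⟩)
          have hr : (r:ℕ) ≤ n + 1 := by have := r.isLt; omega
          refine step _ (((n+2) * Hi f n (fun b => i b / (n+2)) + (r:ℕ) : ℕ) : ℝ)
            ((r:ℕ):ℝ) _ ?_ (by positivity) (by exact_mod_cast hr) ?_ ?_
          · push_cast; ring
          · have := h2.1
            rw [hM] at this
            push_cast at this ⊢
            linarith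
          · have := h2.2
            rw [hM] at this
            push_cast at this ⊢
            linarith
        · have h2 := ht b.castSucc
          simp only [encN, Fin.snoc_castSucc] at h2 ⊢
          have hdm := Nat.div_add_mod (i b) (n+2)
          have hr : i b % (n+2) ≤ n + 1 := by have := Nat.mod_lt (i b) (show 0 < n+2 by omega); omega
          obtain ⟨r, hr'⟩ : ∃ r, r = i b % (n+2) := ⟨_, rfl⟩
          obtain ⟨d, hd'⟩ : ∃ d, d = i b / (n+2) := ⟨_, rfl⟩
          rw [← hr'] at hdm hr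
          rw [← hd'] at hdm ⊢
          have hdm' : (i b : ℝ) = ((n:ℝ)+2) * (d:ℝ) + (r:ℝ) := by exact_mod_cast hdm.symm
          refine step _ (i b : ℝ) (r : ℝ) _ ?_ (by positivity) (by exact_mod_cast hr) ?_ ?_
          · push_cast
            exact hdm'
          · have := h2.1
            rw [hM] at this
            push_cast at this ⊢
            linarith
          · have := h2.2
            rw [hM] at this
            push_cast at this ⊢
            linarith
    have hfib : ∀ i0 ∈ S f n p v,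
        (((S f (n+1) p v).filter (fun i => (fun b => i b / (n+2)) = i0)).card : ℝ) ≤ tval k (n+2) := by
      intro i0 _
      have hM0 := M_posR (n+1)
      have hv' : (fun b => (M (n+1) : ℝ) * v b) ≠ 0 := by
        intro h
        apply hv
        funext b
        have := congrFun h b
        simp only [Pi.zero_apply, mul_eq_zero] at this
        rcases this with h | h
        · exact absurd h hM0.ne'
        · exact h
      refine le_trans ?_ (hf n (fun b => M (n+1) * p b - (n+2) * (encN i0 (Hi f n i0) b : ℝ))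
        (fun b => M (n+1) * v b) hv')
      norm_cast
      apply Finset.card_le_card_of_injOn (fun i => (fun b => ⟨i b % (n+2), Nat.mod_lt _ (by omega)⟩))
      · intro i hi
        simp only [S, Finset.coe_filter, Finset.mem_filter, Set.mem_ofPred_eq, Fintype.mem_piFinset,
          Finset.mem_univ, true_and] at hi ⊢
        obtain ⟨⟨h1, t, ht⟩, h0⟩ := hi
        refine ⟨t, ?_⟩
        intro b
        refine Fin.lastCases ?_ (fun b => ?_) b
        · have h2 := ht (Fin.last k)
          simp only [encN, Fin.snoc_last] at h2 ⊢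
          rw [Hi, h0] at h2
          simp only [enc, Fin.snoc_last]
          push_cast at h2 ⊢
          constructor <;> linarith [h2.1, h2.2]
        · have h2 := ht b.castSucc
          simp only [encN, Fin.snoc_castSucc] at h2 ⊢
          simp only [enc, Fin.snoc_castSucc]
          have hdm := Nat.div_add_mod (i b) (n+2)
          have h00 : i b / (n+2) = i0 b := congrFun h0 b
          rw [h00] at hdm
          obtain ⟨r, hr'⟩ : ∃ r, r = i b % (n+2) := ⟨_, rfl⟩
          rw [← hr'] at hdm ⊢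
          have hdm' : ((n:ℝ)+2) * i0 b + (r : ℝ) = i b := by exact_mod_cast hdm
          push_cast at h2 ⊢
          constructor <;> linarith [h2.1, h2.2]
      · intro i hi i' hi' heq
        simp only [Finset.coe_filter, Set.mem_ofPred_eq] at hi hi'
        funext b
        have h1 := congrFun heq b
        simp only [Fin.mk.injEq] at h1
        have h2 := congrFun hi.2 b
        have h3 := congrFun hi'.2 b
        have h4 : i b / (n+2) = i' b / (n+2) := h2.trans h3.symm
        rw [← Nat.div_add_mod (i b) (n+2), ← Nat.div_add_mod (i' b) (n+2), h1, h4]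
    rw [Finset.card_eq_sum_card_fiberwise hmaps]
    push_cast
    refine (Finset.sum_le_sum hfib).trans ?_
    rw [Finset.sum_const, nsmul_eq_mul]
    exact mul_le_mul_of_nonneg_right ih (tval_nonneg _ _)


/-! ### the tube bound -/

lemma cover (n : ℕ) (p v : EuclideanSpace ℝ (Fin (k+1))) (w : ℝ) (hw : w < 1 / M n) :
    KK f ∩ tube p v w ⊆ ⋃ i ∈ S f n (fun b => p b) (fun b => v b), closure (piece f n i) := by
  classical
  rintro X ⟨hX, hT⟩
  have h1 : KK f ⊆ ⋃ i ∈ Fintype.piFinset (fun _ : Fin k => Finset.range (M n)),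
      closure (piece f n i) := by
    rw [← Finset.closure_biUnion]
    apply closure_mono
    rintro X ⟨x, hx, rfl⟩
    rw [Set.mem_iUnion₂]
    refine ⟨fun b => A n (x b), ?_, x, hx, fun b => rfl, rfl⟩
    rw [Fintype.mem_piFinset]
    intro b
    exact Finset.mem_range.mpr (A_lt n (x b) (hx b))
  have h2 := h1 hX
  rw [Set.mem_iUnion₂] at h2 ⊢
  obtain ⟨i, hi, hXi⟩ := h2
  refine ⟨i, ?_, hXi⟩
  simp only [S, Finset.mem_filter]
  refine ⟨hi, ?_⟩
  have hbox := piece_subset f n i hXi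
  have hMp := M_posR n
  have hne : (line p v).Nonempty := ⟨_, 0, rfl⟩
  have h3 : Metric.infDist X (line p v) < 1 / (2 * M n) := by
    refine lt_of_le_of_lt hT ?_
    rw [one_div, mul_inv]
    rw [one_div] at hw
    linarith
  rw [Metric.infDist_lt_iff hne] at h3
  obtain ⟨y, ⟨t, rfl⟩, hy⟩ := h3
  refine ⟨t, fun b => ?_⟩
  have h4 := hbox b
  have h5 : |X b - (p b + t * v b)| < 1 / (2 * M n) := by
    have := PiLp.dist_apply_le (p := 2) X (p + t • v) b
    rw [Real.dist_eq] at this
    exact lt_of_le_of_lt this hy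
  rw [lt_div_iff₀ (by positivity)] at h5
  have h6 : |(M n : ℝ) * X b - M n * (p b + t * v b)| < 1 / 2 := by
    rw [← mul_sub, abs_mul, abs_of_pos hMp]; linarith
  rw [abs_lt] at h6
  constructor
  · show (encN i (Hi f n i) b : ℝ) - 1 / 2 ≤ M n * p b + t * (M n * v b)
    linarith [h6.1, h6.2, h4.1, h4.2]
  · show M n * p b + t * (M n * v b) ≤ (encN i (Hi f n i) b : ℝ) + 3 / 2
    linarith [h6.1, h6.2, h4.1, h4.2]

lemma main_bound (hf : ∀ n, ∀ p v : Fin (k+1) → ℝ, v ≠ 0 → ∀ F : Finset (Fin k → Fin (n+2)),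
      (∀ i ∈ F, near p v (enc i (f n i))) → (F.card : ℝ) ≤ tval k (n+2))
    (s : ℝ) (hs0 : 0 ≤ s) (hs : s < k) :
    ∃ C : ℝ, ∀ p v : EuclideanSpace ℝ (Fin (k+1)), v ≠ 0 → ∀ w : ℝ, 0 < w →
      μH[(k:ℝ)] (KK f ∩ tube p v w) ≤ ENNReal.ofReal (C * w ^ s) := by
  classical
  obtain ⟨N, hN⟩ := eventually_small k s hs0 hs
  set a : ℕ → ℝ := fun n => (∏ j ∈ Finset.range n, tval k (j+2)) * (1 / (M n : ℝ))^k *
    ((M (n+1) : ℕ) : ℝ)^s with ha
  have hprod : ∀ n, 0 ≤ ∏ j ∈ Finset.range n, tval k (j+2) := fun n =>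
    Finset.prod_nonneg fun _ _ => tval_nonneg _ _
  have hdec : ∀ n ≥ N, a (n+1) ≤ a n := by
    intro n hn
    have h1 := hN n hn
    rw [Real.rpow_natCast] at h1
    have hM0 := M_posR n
    have hM1 := M_posR (n+1)
    have e1 : (M (n+1) : ℝ) = ((n:ℝ)+2) * M n := by rw [M_succ]; push_cast; ring
    have e2 : (M (n+1+1) : ℝ) = ((n:ℝ)+3) * M (n+1) := by rw [M_succ (n+1)]; push_cast; ring
    have e3 : a (n+1) = a n * (tval k (n+2) * ((n:ℝ)+3)^s / ((n:ℝ)+2)^k) := by
      simp only [ha, Finset.prod_range_succ]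
      rw [e2, Real.mul_rpow (by positivity) hM1.le]
      have : (1 / (M (n+1) : ℝ))^k = (1 / (M n : ℝ))^k / ((n:ℝ)+2)^k := by
        rw [← div_pow, e1]; congr 1; field_simp
      rw [this]
      ring
    rw [e3]
    have han : 0 ≤ a n := by
      simp only [ha]; exact mul_nonneg (mul_nonneg (hprod n) (by positivity)) (by positivity)
    have : tval k (n+2) * ((n:ℝ)+3)^s / ((n:ℝ)+2)^k ≤ 1 := by
      rw [div_le_one (by positivity)]; exact h1
    calc a n * _ ≤ a n * 1 := mul_le_mul_of_nonneg_left this han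
      _ = a n := mul_one _
  obtain ⟨C0, hC0, hC⟩ := bdd_of_eventually a N hdec
  refine ⟨((k:ℝ)+1)^k * (C0 + 1), fun p v hv w hw => ?_⟩
  by_cases hw1 : 1 ≤ w
  · refine (measure_mono Set.inter_subset_left).trans ((measure_KK f).trans ?_)
    apply ENNReal.ofReal_le_ofReal
    have h1 : 1 ≤ w ^ s := Real.one_le_rpow hw1 hs0
    calc ((k:ℝ)+1)^k = ((k:ℝ)+1)^k * 1 * 1 := by ring
      _ ≤ ((k:ℝ)+1)^k * (C0 + 1) * w ^ s := by
        apply mul_le_mul _ h1 (by norm_num) (by positivity)
        exact mul_le_mul_of_nonneg_left (by linarith) (by positivity)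
  push Not at hw1
  have hex : ∃ n, 1 / (M (n+1) : ℝ) ≤ w := by
    obtain ⟨n, hn⟩ := exists_nat_gt (1 / w)
    refine ⟨n, ?_⟩
    have h1 : (n:ℝ) ≤ M (n+1) := by
      have : n ≤ M (n+1) := le_trans (by omega) (Nat.self_le_factorial (n+1+1))
      exact_mod_cast this
    rw [one_div_le (M_posR _) hw]
    linarith
  obtain ⟨n, hn1, hn2⟩ : ∃ n, 1 / (M (n+1) : ℝ) ≤ w ∧ w < 1 / (M n : ℝ) := by
    refine ⟨Nat.find hex, Nat.find_spec hex, ?_⟩
    rcases hq : Nat.find hex with _ | q
    · simp [M, hw1]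
    · have := Nat.find_min hex (m := q) (by omega)
      push Not at this
      exact this
  refine (measure_mono (cover f n p v w hn2)).trans ((measure_biUnion_finset_le _ _).trans ?_)
  refine (Finset.sum_le_sum fun i _ => measure_piece f n i).trans ?_
  rw [Finset.sum_const, nsmul_eq_mul, ← ENNReal.ofReal_natCast, ← ENNReal.ofReal_mul (by positivity)]
  apply ENNReal.ofReal_le_ofReal
  have hv' : (fun b => v b) ≠ 0 := by
    intro h
    apply hv
    ext b
    exact congrFun h b
  have hcard := card_S f (fun n p v hv => hf n p v hv _ (fun i hi => (Finset.mem_filter.mp hi).2))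
    (fun b => p b) (fun b => v b) hv' n
  have hMp := M_posR n
  have hMp1 := M_posR (n+1)
  have h6 : (1 / (M (n+1) : ℝ))^s ≤ w ^ s := Real.rpow_le_rpow (by positivity) hn1 hs0
  have h7 : (∏ j ∈ Finset.range n, tval k (j+2)) * (1 / (M n : ℝ))^k ≤ C0 * w ^ s := by
    have h8 := hC n
    simp only [ha] at h8
    have h9 : (1 / (M (n+1) : ℝ))^s * ((M (n+1) : ℕ) : ℝ)^s = 1 := by
      rw [← Real.mul_rpow (by positivity) hMp1.le, one_div, inv_mul_cancel₀ hMp1.ne', Real.one_rpow]
    calc (∏ j ∈ Finset.range n, tval k (j+2)) * (1 / (M n : ℝ))^k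
        = ((∏ j ∈ Finset.range n, tval k (j+2)) * (1 / (M n : ℝ))^k) *
          ((1 / (M (n+1) : ℝ))^s * ((M (n+1) : ℕ) : ℝ)^s) := by rw [h9, mul_one]
      _ = ((∏ j ∈ Finset.range n, tval k (j+2)) * (1 / (M n : ℝ))^k * ((M (n+1) : ℕ) : ℝ)^s) *
          (1 / (M (n+1) : ℝ))^s := by ring
      _ ≤ C0 * w ^ s := mul_le_mul h8 h6 (by positivity) hC0
  calc ((S f n (fun b => p b) (fun b => v b)).card : ℝ) * (((k:ℝ)+1) / M n)^k
      ≤ (∏ j ∈ Finset.range n, tval k (j+2)) * (((k:ℝ)+1) / M n)^k :=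
        mul_le_mul_of_nonneg_right hcard (by positivity)
    _ = ((k:ℝ)+1)^k * ((∏ j ∈ Finset.range n, tval k (j+2)) * (1 / (M n : ℝ))^k) := by
        rw [div_pow, div_pow]; ring
    _ ≤ ((k:ℝ)+1)^k * (C0 * w ^ s) := mul_le_mul_of_nonneg_left h7 (by positivity)
    _ ≤ ((k:ℝ)+1)^k * (C0 + 1) * w ^ s := by
        have : 0 ≤ ((k:ℝ)+1)^k * w ^ s := by positivity
        nlinarith

end

/-- For every `d ≥ 2` there is a compact set of positive finite `(d-1)`-dimensional Hausdorff
measure which satisfies the `s`-tube bound for all `0 ≤ s < d - 1`. -/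
theorem result (d : ℕ) (hd : 2 ≤ d) :
    ∃ K : Set (EuclideanSpace ℝ (Fin d)), IsCompact K ∧
      0 < μH[(d:ℝ) - 1] K ∧ μH[(d:ℝ) - 1] K < ⊤ ∧
      ∀ s : ℝ, 0 ≤ s → s < (d:ℝ) - 1 →
        ∃ C : ℝ, ∀ p v : EuclideanSpace ℝ (Fin d), v ≠ 0 → ∀ w : ℝ, 0 < w →
          μH[(d:ℝ) - 1] (K ∩ tube p v w) ≤ ENNReal.ofReal (C * w ^ s) := by
  classical
  obtain ⟨k, rfl⟩ : ∃ k, d = k + 1 := ⟨d - 1, by omega⟩
  have hk : (((k + 1 : ℕ) : ℝ) - 1) = (k:ℝ) := by push_cast; ring
  rw [hk]
  choose f hf using fun n : ℕ => exists_fun k (n+2) (by omega)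
  refine ⟨KK f, isCompact_KK f, lt_of_lt_of_le one_pos (KK_pos f),
    lt_of_le_of_lt (measure_KK f) ENNReal.ofReal_lt_top, fun s hs0 hs => ?_⟩
  apply main_bound f _ s hs0 hs
  intro n p v hv F hF
  refine le_trans ?_ (hf n p v hv)
  norm_cast
  apply Finset.card_le_card
  intro i hi
  simp only [Finset.mem_filter, Finset.mem_univ, true_and]
  exact hF i hi

end Pool.Agent.Results.MP_e5cefd_an.TubeSet
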